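import Mathlib
import Pool.Agent.H631R2.OmegaF

set_option autoImplicit false

/-!
# It is consistent with (H) that `2 ^ (2 ^< ℵ_ω) ↛ (ℵ_ω, 5)⁴`

Here `2 ^< κ` is the weak power, the supremum of `2 ^ ρ` over `ρ < κ` (Mathlib: `Cardinal.powerlt`).

Every model of ZFC + (H) has a generic extension (by adding `ℵ_ω` Cohen reals) with the same
cardinals in which (H) holds and `2 ^ (2 ^< ℵ_ω) ↛ (ℵ_ω, 5)⁴`.
-/

open Cardinal Set Pool.Agent.Helper292.SP Pool.Agent.H631R2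

namespace Pool.Agent.Results.MP_3ae4a3_lc.QuadruplesFail

/-- Assume (H) in the ground model. There is a forcing notion `P` all of whose conditions force
that cardinals are preserved, that `LL` and `LA` are the cardinals `2 ^< ℵ_ω` and
`2 ^ (2 ^< ℵ_ω)` of the extension, that (H) holds in the extension, and that in the extension
`2 ^ (2 ^< ℵ_ω) ↛ (ℵ_ω, 5)⁴`. -/
theorem result (h1 : ℵ_ Ordinal.omega0 < (2 : Cardinal.{0}) ^< ℵ_ Ordinal.omega0)
    (h2 : ∀ n : ℕ, (2 : Cardinal.{0}) ^ ((2 : Cardinal.{0}) ^ ℵ_ (n : Ordinal.{0})) <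
      2 ^ ((2 : Cardinal.{0}) ^< ℵ_ Ordinal.omega0)) :
    ∃ (P : Type) (_ : Preorder P), Nonempty P ∧ ∀ p : P,
      (∀ X Y : Type, ℵ₀ ≤ #X → #X < #Y → p ∈ NoOnto P X Y) ∧
      p ∈ IsSupPow P NN LL ∧ p ∈ IsPow P LL LA ∧
      p ∈ HypOne P NN KK ∧ p ∈ HypTwo P NN LL LA ∧
      p ∈ NArrow P LA KK 5 4 := by
  refine ⟨PP, inferInstance, ⟨⟨∅, by simp⟩⟩, fun p => ?_⟩
  obtain ⟨a, b, c, d, e, _, g⟩ := main h1 h2 p
  exact ⟨a, b, c, d, e, g⟩

end Pool.Agent.Results.MP_3ae4a3_lc.QuadruplesFail
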